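import Mathlib
import Pool.Agent.Lib.MP_040728_al.DNear

set_option autoImplicit false

namespace Pool.Agent.Results.MP_040728_al.Companion

open Pool.Agent.Lib.MP_040728_al

/-- `N` is the norm of `W` carried to `H` by a topological linear isomorphism. -/
def IsNormFrom (W : Type) [SeminormedAddCommGroup W] [NormedSpace ℂ W]
    (H : Type) [NormedAddCommGroup H] [NormedSpace ℂ H] (N : H → ℝ) : Prop :=
  ∃ T : H ≃L[ℂ] W, ∀ v : H, N v = ‖T v‖

/-- `N` comes from a quotient of `V` by a closed subspace. -/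
def IsQuotNorm (V : Type) [NormedAddCommGroup V] [NormedSpace ℂ V]
    (H : Type) [NormedAddCommGroup H] [NormedSpace ℂ H] (N : H → ℝ) : Prop :=
  ∃ Z : Submodule ℂ V, IsClosed (Z : Set V) ∧ IsNormFrom (V ⧸ Z) H N

/-- `N` comes from a quotient of a closed subspace of `E` by a closed subspace. -/
def IsSubquotNorm (E : Type) [NormedAddCommGroup E] [NormedSpace ℂ E]
    (H : Type) [NormedAddCommGroup H] [NormedSpace ℂ H] (N : H → ℝ) : Prop :=
  ∃ Y : Submodule ℂ E, IsClosed (Y : Set E) ∧ IsQuotNorm Y H N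

/-- `N` is an equivalent norm on `H` making `H` a `p`-space. -/
def IsPNorm (p : ENNReal) [Fact (1 ≤ p)] (H : Type) [NormedAddCommGroup H] [NormedSpace ℂ H]
    (N : H → ℝ) : Prop :=
  ∃ (X : Type) (_ : MeasurableSpace X) (μ : MeasureTheory.Measure X),
    IsSubquotNorm (MeasureTheory.Lp ℂ p μ) H N

/-- `π` is a uniformly bounded representation of `Γ` by bounded operators on `H`. -/
def IsUnifBddRep (Γ : Type) [Group Γ] (H : Type) [NormedAddCommGroup H] [NormedSpace ℂ H]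
    (π : Γ → H →L[ℂ] H) : Prop :=
  (∀ v : H, π 1 v = v) ∧ (∀ (g h : Γ) (v : H), π (g * h) v = π g (π h v)) ∧
    ∃ C : ℝ, ∀ g : Γ, ‖π g‖ ≤ C

/-- Every uniformly bounded representation of `Γ` on a Hilbert space is isometric for some
equivalent `p`-norm. -/
def Isometrisable (p : ENNReal) [Fact (1 ≤ p)] (Γ : Type) [Group Γ] : Prop :=
  ∀ (H : Type) [NormedAddCommGroup H] [InnerProductSpace ℂ H] [CompleteSpace H]
    (π : Γ → H →L[ℂ] H), IsUnifBddRep Γ H π →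
    ∃ N : H → ℝ, IsPNorm p H N ∧ ∀ (g : Γ) (v : H), N (π g v) = N v

/-- Littlewood functions. -/
def Littlewood (Λ : Type) [Group Λ] (f : Λ → ℂ) : Prop :=
  ∃ g₁ g₂ : Λ → Λ → ℂ,
    (∀ x y : Λ, f (x⁻¹ * y) = g₁ x y + g₂ x y) ∧
    (∃ C : ℝ, ∀ x : Λ, Summable (fun y => ‖g₁ x y‖) ∧ (∑' y, ‖g₁ x y‖) ≤ C) ∧
    (∃ C : ℝ, ∀ y : Λ, Summable (fun x => ‖g₂ x y‖) ∧ (∑' x, ‖g₂ x y‖) ≤ C)

theorem result (p : ENNReal) [Fact (1 ≤ p)] (hp2 : p ≤ 2) (Γ : Type) [Group Γ]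
    (hiso : Isometrisable p Γ) (f : Γ → ℂ) (hf : Littlewood Γ f) (r : ENNReal) (hr : 1 ≤ r)
    (hpr : 1 < p ∨ r = ⊤) : Memℓp f r := by
  obtain ⟨g₁, g₂, h, ⟨C₁, h₁⟩, C₂, h₂⟩ := hf
  rcases hpr with hp1 | rfl
  swap
  · refine memℓp_infty ⟨C₁ + C₂, ?_⟩
    rintro _ ⟨y, rfl⟩
    have a1 := ((h₁ 1).1.le_tsum y (fun _ _ => norm_nonneg _)).trans (h₁ 1).2
    have a2 := ((h₂ y).1.le_tsum 1 (fun _ _ => norm_nonneg _)).trans (h₂ y).2
    have a3 := h 1 y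
    rw [inv_one, one_mul] at a3
    simp only [a3]
    exact (norm_add_le _ _).trans (add_le_add a1 a2)
  have hI : Iso p Γ := by
    intro H _ _ _ π hπ
    obtain ⟨N, ⟨X, m, μ, Y, c1, Z, c2, T, hN⟩, hinv⟩ := hiso H (fun g => π g)
      ⟨fun v => by simp, fun g h v => by simp, hπ⟩
    exact ⟨X, m, μ, Y, Z, T, c1, c2, fun g v => ((hN _).symm.trans (hinv g v)).trans (hN v)⟩
  obtain ⟨M, h1, h2⟩ := Dix.iso_mean hp1 hp2 hI
  exact (Dix.littlewood_of_mean h1 h2 f g₁ g₂ h h₁ h₂).of_exponent_ge hr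

end Pool.Agent.Results.MP_040728_al.Companion
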